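import Pool.Agent.helper36.UT.Spec

/-!
# Project UT, row AFF: rational affine functions with integer values
-/

set_option autoImplicit false

open Filter Polynomial FirstOrder FirstOrder.Language

namespace Pool.Agent.UnivT

theorem AFF_map (q : ℚ) (l : List (ℚ × (ℕ → ℤ))) (H : ℕ) :
    ev (l.map fun x => (q * x.1, x.2)) H = q * ev l H := by
  induction l with
  | nil => simp [ev]
  | cons x l ih =>
    rw [List.map_cons, ev_cons, ev_cons, ih]
    ring

theorem AFF (hLGD : LGD_stmt) : AFF_stmt := by
  intro k f g q q' hf hg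
  cases k with
  | zero =>
    obtain ⟨a, n, b, h⟩ := hf
    refine ⟨q * a + q', n, fun i => q * b i, ?_⟩
    filter_upwards [h, hg] with H h1 h2
    rw [h2, h1, mul_add, Finset.mul_sum]
    simp only [mul_assoc]
    ring
  | succ k =>
    obtain ⟨l, hl, h⟩ := hf
    refine ⟨(q', fun _ => 0) :: l.map (fun x => (q * x.1, x.2)), ?_, ?_⟩
    · intro x hx
      rcases List.mem_cons.1 hx with rfl | hx
      · exact (hLGD k).1 0
      · obtain ⟨y, hy, rfl⟩ := List.mem_map.1 hx
        exact hl y hy
    · filter_upwards [h, hg] with H h1 h2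
      rw [h2, h1, ev_cons, AFF_map]
      show q * ev l H + q' = q' * (2 : ℚ) ^ (0 : ℤ) + q * ev l H
      rw [zpow_zero]
      ring

end Pool.Agent.UnivT
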