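import Pool.Agent.helper36.UT.Spec

/-!
# Project UT, row EPR: the 2-adic digits of a rational number are eventually periodic
-/

set_option autoImplicit false

open Filter Polynomial FirstOrder FirstOrder.Language

namespace Pool.Agent.UnivT

/-- one step of the 2-adic division -/
def EPR_T (b : ℕ) (x : ℤ) : ℤ := if x % 2 = 1 then (x - b) / 2 else x / 2

theorem EPR_step (b : ℕ) (hb : b % 2 = 1) (x : ℤ) :
    x = (b : ℤ) * (if x % 2 = 1 then 1 else 0) + 2 * EPR_T b x := by
  unfold EPR_T
  split_ifs with h
  · rw [mul_one]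
    omega
  · rw [mul_zero]
    omega

theorem EPR_bd (b : ℕ) (M : ℤ) (hM : (b : ℤ) ≤ M) (x : ℤ) (h1 : -M ≤ x) (h2 : x ≤ M) :
    -M ≤ EPR_T b x ∧ EPR_T b x ≤ M := by
  unfold EPR_T
  split_ifs with h
  · omega
  · omega

theorem EPR : EPR_stmt := by
  intro a b hb
  obtain ⟨u, hu⟩ : ∃ u : ℕ → ℤ, u = fun i => (EPR_T b)^[i] a := ⟨_, rfl⟩
  have hu0 : u 0 = a := by rw [hu]; rfl
  have hus : ∀ i, u (i + 1) = EPR_T b (u i) := fun i => by
    rw [hu]
    exact Function.iterate_succ_apply' _ _ _
  have hadd : ∀ i j k : ℕ, u i = u j → u (i + k) = u (j + k) := by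
    intro i j k h
    induction k with
    | zero => exact h
    | succ k ih => rw [← Nat.add_assoc, ← Nat.add_assoc, hus, hus, ih]
  refine ⟨fun i => decide (u i % 2 = 1), ?_, ?_⟩
  · obtain ⟨M, hM⟩ : ∃ M : ℤ, M = max |a| b := ⟨_, rfl⟩
    have hMb : (b : ℤ) ≤ M := by rw [hM]; exact le_max_right _ _
    have hMa : |a| ≤ M := by rw [hM]; exact le_max_left _ _
    have hbd : ∀ i, -M ≤ u i ∧ u i ≤ M := by
      intro i
      induction i with
      | zero =>
        rw [hu0]
        exact abs_le.1 hMa
      | succ i ih =>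
        rw [hus]
        exact EPR_bd b M hMb (u i) ih.1 ih.2
    let f : ℕ → Set.Icc (-M) M := fun i => ⟨u i, hbd i⟩
    obtain ⟨i, j, hne, hij⟩ := Finite.exists_ne_map_eq_of_infinite f
    have hij' : u i = u j := congrArg Subtype.val hij
    have key : ∀ i j : ℕ, i < j → u i = u j → EP fun i => decide (u i % 2 = 1) := by
      intro i j h1 h2
      refine ⟨j - i, i, by omega, fun n hn => ?_⟩
      have h3 := hadd j i (n - i) h2.symm
      rw [show i + (n - i) = n from by omega, show j + (n - i) = n + (j - i) from by omega] at h3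
      show decide (u (n + (j - i)) % 2 = 1) = decide (u n % 2 = 1)
      rw [h3]
    rcases Nat.lt_or_gt_of_ne hne with h | h
    · exact key i j h hij'
    · exact key j i h hij'.symm
  · intro L
    refine ⟨u L, ?_⟩
    induction L with
    | zero => rw [val, Finset.range_zero, Finset.sum_empty, hu0]; ring
    | succ L ih =>
      have h1 : val (fun i => decide (u i % 2 = 1)) (L + 1) =
          val (fun i => decide (u i % 2 = 1)) L + 2 ^ L * (if u L % 2 = 1 then 1 else 0) := by
        unfold val
        rw [Finset.sum_range_succ]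
        by_cases h : u L % 2 = 1
        · simp [h]
        · simp [h]
      rw [h1]
      have h2 := EPR_step b hb (u L)
      rw [← hus] at h2
      calc a = b * val (fun i => decide (u i % 2 = 1)) L + 2 ^ L * u L := ih
        _ = b * val (fun i => decide (u i % 2 = 1)) L +
            2 ^ L * ((b : ℤ) * (if u L % 2 = 1 then 1 else 0) + 2 * u (L + 1)) := by rw [← h2]
        _ = _ := by ring

end Pool.Agent.UnivT
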