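import Pool.Agent.helper36.UT.Spec

/-!
# Project UT, row INS: insertion of one term into a normal form
-/

set_option autoImplicit false

open Filter Polynomial FirstOrder FirstOrder.Language

namespace Pool.Agent.UnivT

theorem INS_trans (x y z : ℚ × (ℕ → ℤ)) (h1 : Far x y) (h2 : Far y z) : Far x z := by
  have h3 := Filter.Tendsto.atTop_add_atTop h1 h2
  refine h3.congr fun H => ?_
  show x.2 H - y.2 H + (y.2 H - z.2 H) = x.2 H - z.2 H
  ring

theorem INS : INS_stmt := by
  intro C hC x l hx hl hNF
  by_cases hx0 : x.1 = 0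
  · refine ⟨l, hNF, fun z hz => Or.inr ⟨z, hz, rfl⟩, Filter.Eventually.of_forall fun H => ?_⟩
    rw [ev_cons, hx0, zero_mul, zero_add]
  induction l with
  | nil =>
    refine ⟨[x], ⟨List.pairwise_singleton _ _, ?_⟩, ?_, Filter.Eventually.of_forall fun H => rfl⟩
    · intro z hz
      rw [List.mem_singleton] at hz
      rw [hz]
      exact hx0
    · intro z hz
      rw [List.mem_singleton] at hz
      exact Or.inl (by rw [hz])
  | cons y m ih =>
    obtain ⟨hP, hne⟩ := hNF
    rw [List.pairwise_cons] at hP
    obtain ⟨hym, hPm⟩ := hP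
    have hCy : C y.2 := hl y List.mem_cons_self
    have hCm : ∀ z ∈ m, C z.2 := fun z hz => hl z (List.mem_cons_of_mem _ hz)
    have hNm : NF m := ⟨hPm, fun z hz => hne z (List.mem_cons_of_mem _ hz)⟩
    rcases hC.2.2.2 _ (hC.2.1 _ _ hx hCy) with ⟨c, hc⟩ | hD | hD
    · by_cases hk : y.1 + x.1 * (2 : ℚ) ^ c = 0
      · refine ⟨m, hNm, fun z hz => Or.inr ⟨z, List.mem_cons_of_mem _ hz, rfl⟩, ?_⟩
        filter_upwards [hc] with H h1
        have h2 : x.2 H = c + y.2 H := by omega
        rw [ev_cons, ev_cons, h2, zpow_add₀ (by norm_num : (2 : ℚ) ≠ 0)]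
        have h3 : x.1 * (2 ^ c * 2 ^ y.2 H) + (y.1 * 2 ^ y.2 H + ev m H) =
            (y.1 + x.1 * (2 : ℚ) ^ c) * 2 ^ y.2 H + ev m H := by ring
        rw [h3, hk, zero_mul, zero_add]
      · refine ⟨(y.1 + x.1 * (2 : ℚ) ^ c, y.2) :: m, ⟨?_, ?_⟩, ?_, ?_⟩
        · rw [List.pairwise_cons]
          exact ⟨fun z hz => hym z hz, hPm⟩
        · intro z hz
          rcases List.mem_cons.1 hz with rfl | hz
          · exact hk
          · exact hne z (List.mem_cons_of_mem _ hz)
        · intro z hz
          rcases List.mem_cons.1 hz with rfl | hz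
          · exact Or.inr ⟨y, List.mem_cons_self, rfl⟩
          · exact Or.inr ⟨z, List.mem_cons_of_mem _ hz, rfl⟩
        · filter_upwards [hc] with H h1
          have h2 : x.2 H = c + y.2 H := by omega
          rw [ev_cons, ev_cons, ev_cons, h2, zpow_add₀ (by norm_num : (2 : ℚ) ≠ 0)]
          ring
    · refine ⟨x :: y :: m, ⟨?_, ?_⟩, ?_, Filter.Eventually.of_forall fun H => rfl⟩
      · rw [List.pairwise_cons, List.pairwise_cons]
        refine ⟨fun z hz => ?_, hym, hPm⟩
        rcases List.mem_cons.1 hz with rfl | hz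
        · exact hD
        · exact INS_trans x y z hD (hym z hz)
      · intro z hz
        rcases List.mem_cons.1 hz with rfl | hz
        · exact hx0
        · exact hne z hz
      · intro z hz
        rcases List.mem_cons.1 hz with rfl | hz
        · exact Or.inl rfl
        · exact Or.inr ⟨z, hz, rfl⟩
    · have hFyx : Far y x := by
        have h1 := tendsto_neg_atBot_atTop.comp hD
        refine h1.congr fun H => ?_
        show -(x.2 H - y.2 H) = y.2 H - x.2 H
        ring
      obtain ⟨m', hN', hz', hev⟩ := ih hCm hNm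
      refine ⟨y :: m', ⟨?_, ?_⟩, ?_, ?_⟩
      · rw [List.pairwise_cons]
        refine ⟨fun z hz => ?_, hN'.1⟩
        rcases hz' z hz with h | ⟨w, hw, h⟩
        · unfold Far
          rw [h]
          exact hFyx
        · unfold Far
          rw [h]
          exact hym w hw
      · intro z hz
        rcases List.mem_cons.1 hz with rfl | hz
        · exact hne _ List.mem_cons_self
        · exact hN'.2 z hz
      · intro z hz
        rcases List.mem_cons.1 hz with rfl | hz
        · exact Or.inr ⟨_, List.mem_cons_self, rfl⟩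
        · rcases hz' z hz with h | ⟨w, hw, h⟩
          · exact Or.inl h
          · exact Or.inr ⟨w, List.mem_cons_of_mem _ hw, h⟩
      · filter_upwards [hev] with H h1
        rw [ev_cons, ev_cons] at *
        rw [ev_cons, ← h1]
        ring

end Pool.Agent.UnivT
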